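import Mathlib

set_option autoImplicit false

namespace Pool.Agent.Results.MP_407f73_al.Counter

/-- action of the state `q` of the Mealy automaton `(Q, A, δ, lam)` on finite words -/
def act {Q A : Type} (δ : Q → A → Q) (lam : Q → A → A) : Q → List A → List A
  | _, [] => []
  | q, a :: w => lam q a :: act δ lam (δ q a) w

/-- action of a word of states: the letters act one after the other -/
def actW {Q A : Type} (δ : Q → A → Q) (lam : Q → A → A) (s : List Q) (u : List A) : List A :=
  s.foldl (fun w q => act δ lam q w) u

def d : Option Bool → Bool × Bool → Option Bool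
  | some _, a => some a.1
  | none, _ => none

def l : Option Bool → Bool × Bool → Bool × Bool
  | some b, a => (b, a.2)
  | none, a => (a.1, a.1)

lemma act_none (u : List (Bool × Bool)) : act d l none u = u.map fun a => (a.1, a.1) := by
  induction u with
  | nil => rfl
  | cons a u ih => simp [act, d, l, ih]

lemma act_some (u : List (Bool × Bool)) : ∀ b, (act d l (some b) u).map Prod.snd = u.map Prod.snd ∧
    (act d l (some b) u).map Prod.fst = (b :: u.map Prod.fst).take u.length := by
  induction u with
  | nil => intro b; simp [act]
  | cons a u ih =>
    intro b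
    obtain ⟨h1, h2⟩ := ih a.1
    simp [act, d, l, h1, h2]

lemma shift (x : List Bool) (u : List (Bool × Bool)) :
    (actW d l (x.reverse.map some) u).map Prod.snd = u.map Prod.snd ∧
    (actW d l (x.reverse.map some) u).map Prod.fst = (x ++ u.map Prod.fst).take u.length := by
  induction x with
  | nil => simp [actW]
  | cons b x ih =>
    obtain ⟨h1, h2⟩ := ih
    have e : actW d l ((b :: x).reverse.map some) u =
        act d l (some b) (actW d l (x.reverse.map some) u) := by
      simp [actW]
    have hl : (actW d l (x.reverse.map some) u).length = u.length := by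
      simpa using congrArg List.length h1
    obtain ⟨h3, h4⟩ := act_some (actW d l (x.reverse.map some) u) b
    rw [e, h3, h4, h1, h2, hl]
    refine ⟨rfl, ?_⟩
    cases hu : u.length with
    | zero => simp
    | succ n => simp [List.take_take]

lemma ext2 (u v : List (Bool × Bool)) (h1 : u.map Prod.fst = v.map Prod.fst)
    (h2 : u.map Prod.snd = v.map Prod.snd) : u = v := by
  rw [← List.zip_unzip u, ← List.zip_unzip v, List.unzip_fst, List.unzip_snd, List.unzip_fst,
    List.unzip_snd]
  exact congrArg₂ List.zip h1 h2

lemma dual (w : List (Option Bool)) : ∀ a b c : Bool,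
    act (fun a q => l q a) (fun a q => d q a) (a, b) w =
      act (fun a q => l q a) (fun a q => d q a) (a, c) w := by
  induction w with
  | nil => intros; rfl
  | cons q w ih =>
    intro a b c
    cases q with
    | none => rfl
    | some e => exact congrArg (List.cons (some a)) (ih e b c)

theorem result : ∃ (Q A : Type) (_ : Fintype Q) (_ : Nonempty Q) (_ : Fintype A)
    (δ : Q → A → Q) (lam : Q → A → A), 2 ≤ Fintype.card A ∧
    (∀ u v : List A, u.length = v.length → ∃ s : List Q, s ≠ [] ∧ actW δ lam s u = v) ∧
    ∃ x y : List A, x ≠ [] ∧ y ≠ [] ∧ x ≠ y ∧ ∀ w : List Q,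
      actW (fun a q => lam q a) (fun a q => δ q a) x w =
        actW (fun a q => lam q a) (fun a q => δ q a) y w := by
  refine ⟨Option Bool, Bool × Bool, inferInstance, inferInstance, inferInstance, d, l, by decide,
    fun u v h => ?_, [(false, false)], [(false, true)], by simp, by simp, by simp,
    fun w => dual w _ _ _⟩
  refine ⟨(v.map Prod.snd).reverse.map some ++ none :: (v.map Prod.fst).reverse.map some,
    by simp, ?_⟩
  obtain ⟨h1, h2⟩ := shift (v.map Prod.snd) u
  set u1 := actW d l ((v.map Prod.snd).reverse.map some) u with hu1
  have hl : u1.length = u.length := by simpa using congrArg List.length h1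
  have h2' : u1.map Prod.fst = v.map Prod.snd := by
    rw [h2, List.take_append_of_le_length (by simp [h]), List.take_of_length_le (by simp [h])]
  obtain ⟨h3, h4⟩ := shift (v.map Prod.fst) (act d l none u1)
  have e : actW d l ((v.map Prod.snd).reverse.map some ++
      none :: (v.map Prod.fst).reverse.map some) u =
      actW d l ((v.map Prod.fst).reverse.map some) (act d l none u1) := by
    simp only [actW, List.foldl_append, List.foldl_cons, hu1]
  rw [e]
  apply ext2
  · rw [h4, act_none, List.length_map, hl,
      List.take_append_of_le_length (by simp [h]), List.take_of_length_le (by simp [h])]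
  · rw [h3, act_none, List.map_map, ← h2']; rfl

end Pool.Agent.Results.MP_407f73_al.Counter
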